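import Mathlib
import Pool.Agent.Run7.h794.MK.All
import Pool.Agent.Run7.h591.EG.Fur

set_option autoImplicit false
set_option maxHeartbeats 4000000

namespace Pool.Agent.Results.MP_bf4c7f_nt.DifferenceSets

open Finset Filter Topology
open Pool.Agent.Run7.h591.EG

open Classical in
/-- the upper Banach density of a set of natural numbers: the limsup, as `L → ∞`, of the maximal density of `S`
in an interval `[a, a + L)` -/
noncomputable def ubd (S : Set ℕ) : ℝ :=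
  limsup (fun L : ℕ => ⨆ a : ℕ, (((Ico a (a + L)).filter (fun x => x ∈ S)).card : ℝ) / L) atTop

/-- the `s` in `S` with `s + k` in `S` -/
def both (S : Set ℕ) (k : ℕ) : Set ℕ := {s | s ∈ S ∧ s + k ∈ S}

open Classical in
/-- the primes `p` strictly between `a` and `b` such that `p - 1` is a popular difference of `S` -/
noncomputable def popMinus (S : Set ℕ) (ε : ℝ) (a b : ℕ) : Finset ℕ :=
  (Ioo a b).filter (fun p => p.Prime ∧ ubd S ^ 2 - ε < ubd (both S (p - 1)))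

open Classical in
/-- the primes `p` strictly between `a` and `b` such that `p + 1` is a popular difference of `S` -/
noncomputable def popPlus (S : Set ℕ) (ε : ℝ) (a b : ℕ) : Finset ℕ :=
  (Ioo a b).filter (fun p => p.Prime ∧ ubd S ^ 2 - ε < ubd (both S (p + 1)))

open Classical in
lemma q_le (S : Set ℕ) (a L : ℕ) : (((Ico a (a + L)).filter (fun x => x ∈ S)).card : ℝ) / L ≤ 1 := by
  apply div_le_one_of_le₀ _ (by positivity)
  have h1 : ((Ico a (a + L)).filter (fun x => x ∈ S)).card ≤ L := by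
    refine (card_filter_le _ _).trans ?_
    rw [Nat.card_Ico]; omega
  exact_mod_cast h1

open Classical in
lemma q_bdd (S : Set ℕ) (L : ℕ) :
    BddAbove (Set.range fun a : ℕ => (((Ico a (a + L)).filter (fun x => x ∈ S)).card : ℝ) / L) := by
  refine ⟨1, ?_⟩
  rintro _ ⟨a, rfl⟩
  exact q_le S a L

open Classical in
lemma D_le (S : Set ℕ) (L : ℕ) : ⨆ a : ℕ, (((Ico a (a + L)).filter (fun x => x ∈ S)).card : ℝ) / L ≤ 1 :=
  ciSup_le fun a => q_le S a L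

open Classical in
lemma D_nonneg (S : Set ℕ) (L : ℕ) : 0 ≤ ⨆ a : ℕ, (((Ico a (a + L)).filter (fun x => x ∈ S)).card : ℝ) / L :=
  le_ciSup_of_le (q_bdd S L) 0 (by positivity)

lemma ubd_nonneg (S : Set ℕ) : 0 ≤ ubd S := by
  unfold ubd
  refine le_limsup_of_frequently_le ?_ ?_
  · exact (Eventually.of_forall fun L => D_nonneg S L).frequently
  · exact isBoundedUnder_of ⟨1, fun L => D_le S L⟩

open Classical in
lemma exists_seq (S : Set ℕ) (η : ℝ) (hη : 0 < η) : ∃ a L : ℕ → ℕ, Tendsto L atTop atTop ∧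
    ∀ j, (ubd S - η) * L j ≤ (((Ico (a j) (a j + L j)).filter (fun x => x ∈ S)).card : ℝ) := by
  have h1 : ∃ᶠ L : ℕ in atTop, ubd S - η < ⨆ a : ℕ, (((Ico a (a + L)).filter (fun x => x ∈ S)).card : ℝ) / L := by
    apply frequently_lt_of_lt_limsup
    · exact IsBoundedUnder.isCoboundedUnder_le (isBoundedUnder_of ⟨0, fun L => D_nonneg S L⟩)
    · change ubd S - η < ubd S
      linarith
  have h2 : ∀ j : ℕ, ∃ L a : ℕ, j + 1 ≤ L ∧
      (ubd S - η) * L ≤ (((Ico a (a + L)).filter (fun x => x ∈ S)).card : ℝ) := by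
    intro j
    obtain ⟨L, hL, hLt⟩ := (frequently_atTop.1 h1) (j + 1)
    obtain ⟨a, ha⟩ := exists_lt_of_lt_ciSup hLt
    refine ⟨L, a, hL, ?_⟩
    have h0 : (0 : ℝ) < L := by exact_mod_cast (by omega : 0 < L)
    rw [lt_div_iff₀ h0] at ha
    exact ha.le
  choose L a h3 h4 using h2
  refine ⟨a, L, ?_, h4⟩
  exact tendsto_atTop_mono (fun j => (Nat.le_succ j).trans (h3 j)) tendsto_id

open Classical in
lemma le_ubd (R : Set ℕ) (c : ℝ) (a L : ℕ → ℕ) (hL : Tendsto L atTop atTop)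
    (h : ∃ᶠ j in atTop, c * L j < (((Ico (a j) (a j + L j)).filter (fun x => x ∈ R)).card : ℝ)) : c ≤ ubd R := by
  unfold ubd
  refine le_limsup_of_frequently_le ?_ (isBoundedUnder_of ⟨1, fun L => D_le R L⟩)
  have h2 : ∃ᶠ j in atTop, c ≤ ⨆ x : ℕ, (((Ico x (x + L j)).filter (fun x => x ∈ R)).card : ℝ) / (L j : ℕ) := by
    refine (h.and_eventually (hL.eventually_ge_atTop 1)).mono ?_
    rintro j ⟨h3, h4⟩
    have h0 : (0 : ℝ) < L j := by exact_mod_cast (by omega : 0 < L j)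
    refine le_ciSup_of_le (q_bdd R (L j)) (a j) ?_
    rw [le_div_iff₀ h0]
    exact h3.le
  exact hL.frequently h2

/-- the core statement with real numbers `d < ubd S` removed -/
lemma main (S : Set ℕ) (ε : ℝ) (hε : 0 < ε) : ∃ κ : ℝ, 0 < κ ∧
    (∀ C : ℕ, ∃ N₀ : ℕ, ∀ N : ℕ, N₀ ≤ N → ∃ Bad : Finset ℕ, Bad ⊆ Ioc N (2 * N) ∧
      (Bad.card : ℝ) ≤ N / Real.log N ^ C ∧ ∀ x ∈ Ioc N (2 * N), x ∉ Bad →
        (κ * x / Real.log x ≤ ((popMinus S ε (x ^ 2 - x) (x ^ 2)).card : ℝ) ∧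
        κ * x / Real.log x ≤ ((popPlus S ε (x ^ 2 - x) (x ^ 2)).card : ℝ)) ∧
        (κ * x / Real.log x ≤ ((popMinus S ε (x ^ 2) (x ^ 2 + x)).card : ℝ) ∧
        κ * x / Real.log x ≤ ((popPlus S ε (x ^ 2) (x ^ 2 + x)).card : ℝ))) := by
  classical
  have hu := ubd_nonneg S
  -- a slightly smaller density
  obtain ⟨η, hη, hη2, hη3⟩ : ∃ η : ℝ, 0 < η ∧ ubd S ^ 2 - ε / 2 ≤ (max (ubd S - η) 0) ^ 2 ∧ True := by
    refine ⟨ε / (4 * (ubd S + 1)), by positivity, ?_, trivial⟩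
    set η := ε / (4 * (ubd S + 1)) with hη
    have h1 : η * ubd S ≤ ε / 4 := by
      rw [hη, div_mul_eq_mul_div, div_le_div_iff₀ (by positivity) (by norm_num)]
      nlinarith
    rcases le_total (ubd S - η) 0 with h | h
    · rw [max_eq_right h]
      nlinarith
    · rw [max_eq_left h]
      nlinarith [sq_nonneg η]
  obtain ⟨a, L, hL, hS⟩ := exists_seq S η hη
  have hS' : ∀ j, max (ubd S - η) 0 * L j ≤ (((Ico (a j) (a j + L j)).filter (fun x => x ∈ S)).card : ℝ) := by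
    intro j
    rcases le_total (ubd S - η) 0 with h | h
    · rw [max_eq_right h, zero_mul]
      positivity
    · rw [max_eq_left h]
      exact hS j
  obtain ⟨κ, hκ, f1, f2⟩ := fur Pool.Agent.Run7.h794.MK.all_all S (max (ubd S - η) 0) (le_max_right _ _) a L hL hS'
    (ε / 4) (by positivity)
  refine ⟨κ, hκ, ?_⟩
  have hkey : ∀ k : ℕ, (∃ᶠ j in atTop, ((max (ubd S - η) 0) ^ 2 - ε / 4) * L j <
      (((Ico (a j) (a j + L j)).filter (fun s => s ∈ S ∧ s + k ∈ S)).card : ℝ)) → ubd S ^ 2 - ε < ubd (both S k) := by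
    intro k hk
    have h1 : (max (ubd S - η) 0) ^ 2 - ε / 4 ≤ ubd (both S k) := by
      refine le_ubd (both S k) _ a L hL (hk.mono fun j hj => ?_)
      convert hj using 4
      exact Iff.rfl
    linarith
  -- the four statements
  have step : ∀ (τ : ℕ → ℕ) (α β : ℕ → ℕ), (∀ n, 3 ≤ n → ¬ (β n).Prime) → (∀ n, ((β n : ℕ) : ℝ) - (α n : ℕ) = n) →
      (∃ n₀ : ℕ, ∀ n : ℕ, n₀ ≤ n → (n - 1) ^ 2 ≤ α n ∧ α n ≤ β n ∧ β n ≤ (n + 1) ^ 2 ∧
        (n : ℝ) / Real.log n ^ 1 ≤ (β n : ℝ) - α n) →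
      AW (fun _ n x y => κ * ((y : ℝ) - x) ≤ Real.log n * (((pr x y).filter (fun p =>
        ∃ᶠ j in atTop, ((max (ubd S - η) 0) ^ 2 - ε / 4) * L j <
        (((Ico (a j) (a j + L j)).filter (fun s => s ∈ S ∧ s + τ p ∈ S)).card : ℝ))).card : ℝ)) →
      ∀ C : ℕ, ∃ N₀ : ℕ, ∀ N : ℕ, N₀ ≤ N → ∃ Bad : Finset ℕ, Bad ⊆ Ioc N (2 * N) ∧
      (Bad.card : ℝ) ≤ N / Real.log N ^ C ∧ ∀ x ∈ Ioc N (2 * N), x ∉ Bad →
        κ * x / Real.log x ≤ (((Ioo (α x) (β x)).filter (fun p => p.Prime ∧ ubd S ^ 2 - ε < ubd (both S (τ p)))).card : ℝ) := by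
    intro τ α β hβ hlen hwin hAW
    obtain ⟨n₀, hn₀⟩ := hwin
    obtain ⟨n₂, hn₂⟩ := Pool.Agent.H373R2.T7.ev_L' 1
    have h2 := AW_at' hAW α β 1 n₀ hn₀ (fun n => κ * n ≤ Real.log n * (((pr (α n) (β n)).filter (fun p =>
        ∃ᶠ j in atTop, ((max (ubd S - η) 0) ^ 2 - ε / 4) * L j <
        (((Ico (a j) (a j + L j)).filter (fun s => s ∈ S ∧ s + τ p ∈ S)).card : ℝ))).card : ℝ)) (by
      intro N n _ h
      rwa [hlen] at h)
    refine alm_mono _ _ (max n₂ 3) ?_ h2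
    intro n hn e
    have hn3 : 3 ≤ n := le_trans (le_max_right _ _) hn
    have hLn := hn₂ n (le_trans (le_max_left _ _) hn)
    have hL0 : 0 < Real.log n := by linarith
    rw [div_le_iff₀ hL0]
    refine e.trans ?_
    rw [mul_comm]
    apply mul_le_mul_of_nonneg_right _ hL0.le
    have hsub : (pr (α n) (β n)).filter (fun p =>
        ∃ᶠ j in atTop, ((max (ubd S - η) 0) ^ 2 - ε / 4) * L j <
        (((Ico (a j) (a j + L j)).filter (fun s => s ∈ S ∧ s + τ p ∈ S)).card : ℝ)) ⊆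
        (Ioo (α n) (β n)).filter (fun p => p.Prime ∧ ubd S ^ 2 - ε < ubd (both S (τ p))) := by
      intro p hp
      rw [mem_filter, pr, mem_filter, mem_Ioc] at hp
      rw [mem_filter, mem_Ioo]
      refine ⟨⟨hp.1.1.1, lt_of_le_of_ne hp.1.1.2 ?_⟩, hp.1.2, hkey _ hp.2⟩
      rintro rfl
      exact hβ n hn3 hp.1.2
    exact_mod_cast card_le_card hsub
  have s1 := step (fun p => p - 1) (fun n => n ^ 2 - n) (fun n => n ^ 2) (fun n _ => sq_not_prime n) len_lo half_lo f1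
  have s2 := step (fun p => p + 1) (fun n => n ^ 2 - n) (fun n => n ^ 2) (fun n _ => sq_not_prime n) len_lo half_lo f2
  have s3 := step (fun p => p - 1) (fun n => n ^ 2) (fun n => n ^ 2 + n) (fun n hn => pro_not_prime n (by omega))
    len_hi half_hi f1
  have s4 := step (fun p => p + 1) (fun n => n ^ 2) (fun n => n ^ 2 + n) (fun n hn => pro_not_prime n (by omega))
    len_hi half_hi f2
  exact alm_and _ _ (alm_and _ _ s1 s2) (alm_and _ _ s3 s4)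

lemma ubd_empty : ubd ∅ = 0 := by
  unfold ubd
  simp

lemma ex_diff (S : Set ℕ) (k : ℕ) (h : 0 < ubd (both S k)) : ∃ s ∈ S, s + k ∈ S := by
  by_contra hcon
  push Not at hcon
  have : both S k = ∅ := by
    rw [Set.eq_empty_iff_forall_notMem]
    rintro s ⟨h1, h2⟩
    exact hcon s h1 h2
  rw [this, ubd_empty] at h
  exact lt_irrefl _ h

theorem result (S : Set ℕ) :
    (∀ ε : ℝ, 0 < ε → ∃ κ : ℝ, 0 < κ ∧
      ∀ C : ℕ, ∃ N₀ : ℕ, ∀ N : ℕ, N₀ ≤ N → ∃ Bad : Finset ℕ, Bad ⊆ Ioc N (2 * N) ∧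
        (Bad.card : ℝ) ≤ N / Real.log N ^ C ∧ ∀ x ∈ Ioc N (2 * N), x ∉ Bad →
          (κ * x / Real.log x ≤ ((popMinus S ε (x ^ 2 - x) (x ^ 2)).card : ℝ) ∧
          κ * x / Real.log x ≤ ((popPlus S ε (x ^ 2 - x) (x ^ 2)).card : ℝ)) ∧
          (κ * x / Real.log x ≤ ((popMinus S ε (x ^ 2) (x ^ 2 + x)).card : ℝ) ∧
          κ * x / Real.log x ≤ ((popPlus S ε (x ^ 2) (x ^ 2 + x)).card : ℝ))) ∧
    (0 < ubd S → ∀ C : ℕ, ∃ N₀ : ℕ, ∀ N : ℕ, N₀ ≤ N → ∃ Bad : Finset ℕ, Bad ⊆ Ioc N (2 * N) ∧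
        (Bad.card : ℝ) ≤ N / Real.log N ^ C ∧ ∀ x ∈ Ioc N (2 * N), x ∉ Bad →
          (∃ p : ℕ, p.Prime ∧ x ^ 2 - x < p ∧ p < x ^ 2 ∧ ∃ s ∈ S, s + (p - 1) ∈ S) ∧
          (∃ p : ℕ, p.Prime ∧ x ^ 2 < p ∧ p < x ^ 2 + x ∧ ∃ s ∈ S, s + (p - 1) ∈ S) ∧
          (∃ p : ℕ, p.Prime ∧ x ^ 2 - x < p ∧ p < x ^ 2 ∧ ∃ s ∈ S, s + (p + 1) ∈ S) ∧
          (∃ p : ℕ, p.Prime ∧ x ^ 2 < p ∧ p < x ^ 2 + x ∧ ∃ s ∈ S, s + (p + 1) ∈ S)) := by
  classical
  refine ⟨fun ε hε => main S ε hε, fun hS => ?_⟩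
  obtain ⟨κ, hκ, h⟩ := main S (ubd S ^ 2 / 2) (by positivity)
  obtain ⟨n₂, hn₂⟩ := Pool.Agent.H373R2.T7.ev_L' 1
  refine alm_mono _ _ (max n₂ 1) ?_ h
  rintro x hx ⟨⟨e1, e2⟩, e3, e4⟩
  have hL := hn₂ x (le_trans (le_max_left _ _) hx)
  have hx1 : 1 ≤ x := le_trans (le_max_right _ _) hx
  have hxR : (0 : ℝ) < x := by exact_mod_cast (by omega : 0 < x)
  have hL0 : 0 < Real.log x := by linarith
  have hpos : 0 < κ * x / Real.log x := by positivity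
  have key : ∀ (τ : ℕ → ℕ) (a b : ℕ), κ * x / Real.log x ≤ (((Ioo a b).filter
      (fun p => p.Prime ∧ ubd S ^ 2 - ubd S ^ 2 / 2 < ubd (both S (τ p)))).card : ℝ) →
      ∃ p : ℕ, p.Prime ∧ a < p ∧ p < b ∧ ∃ s ∈ S, s + τ p ∈ S := by
    intro τ a b hc
    have h1 : 0 < ((Ioo a b).filter (fun p => p.Prime ∧ ubd S ^ 2 - ubd S ^ 2 / 2 < ubd (both S (τ p)))).card := by
      exact_mod_cast hpos.trans_le hc
    obtain ⟨p, hp⟩ := card_pos.1 h1
    rw [mem_filter, mem_Ioo] at hp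
    refine ⟨p, hp.2.1, hp.1.1, hp.1.2, ex_diff S _ (lt_trans ?_ hp.2.2)⟩
    have : 0 < ubd S ^ 2 := by positivity
    linarith
  exact ⟨key (fun p => p - 1) _ _ e1, key (fun p => p - 1) _ _ e3, key (fun p => p + 1) _ _ e2,
    key (fun p => p + 1) _ _ e4⟩

end Pool.Agent.Results.MP_bf4c7f_nt.DifferenceSets
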