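import Mathlib
import Pool.Agent.Run7.h337.MK.TwoSide

/-!
# Matched tuples of primes in the two intervals of Oppermann's conjecture, almost all n
-/

set_option autoImplicit false

namespace Pool.Agent.Results.MP_bf4c7f_nt.MatchedTuples

open Finset
open Run7.h337.MK (PrimeLaw TwoSided)

theorem result (r T U : ℕ) (ε : ℝ) (hε : 0 < ε) (hε1 : ε ≤ 1) :
    ∃ V C D X₀ : ℕ, ∀ X : ℕ, X₀ ≤ X →
    ∃ E : Finset ℕ, (E.card : ℝ) ≤ X / Real.log X ^ U ∧ ∀ n : ℕ, 1 ≤ n → n ≤ X → n ∉ E →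
    PrimeLaw 1 X ε (n ^ 2 - n) (n ^ 2) ∧ PrimeLaw 1 X ε (n ^ 2) (n ^ 2 + n) ∧ TwoSided r T V C D X ε n :=
  Run7.h337.MK.two_sided r T U ε hε hε1

end Pool.Agent.Results.MP_bf4c7f_nt.MatchedTuples
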