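import Pool.Agent.Run7.h946.SQ.Use

/-!
# Oppermann's conjecture near good rational approximations, for primes in Bohr sets

`1, α_1, …, α_r` are linearly independent over `ℚ`. For almost all real `d`-tuples `θ` and all but finitely many good
rational approximations `p / q` of `θ`, Oppermann's conjecture holds at ALL the integers `x ≥ 3` which are small integral
combinations of `p_1, …, p_d, q, 1`, and it holds for the primes of all the Bohr sets of `α` of density at least `δ`;
moreover the primes in the Oppermann intervals of these `x` are equidistributed in all boxes and in all subintervals of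
length at least `x / (log x)^W`.
-/

set_option autoImplicit false
set_option maxHeartbeats 4000000

namespace Pool.Agent.Results.MP_bf4c7f_nt.NearApproximations

open Finset Filter Topology MeasureTheory
open Run7.h946.SQ (Bohr Independent cnt Good)
open Run7.h469.Tm (GoodApproximation Near)

/-- Oppermann's conjecture at `x` for the primes of all the Bohr sets of `α` of density at least `δ` -/
def OppermannAt {r : ℕ} (α : Fin r → ℝ) (δ : ℝ) (x : ℕ) : Prop :=
  ∀ u v : Fin r → ℝ, (∀ j, u j ≤ v j) → (∀ j, v j ≤ u j + 1) → δ ≤ ∏ j, (v j - u j) →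
    (∃ p, x ^ 2 - x < p ∧ p < x ^ 2 ∧ Bohr α u v p) ∧ (∃ p, x ^ 2 < p ∧ p < x ^ 2 + x ∧ Bohr α u v p)

/-- In every subinterval `(s, t]` of `[x² - x, x² + x]` of length at least `x / (log x)^W` the number of the primes of every
Bohr set of `α` is the expected number, up to the relative error `ε`. -/
def EquidistributedAt {r : ℕ} (α : Fin r → ℝ) (W : ℕ) (ε : ℝ) (x : ℕ) : Prop :=
  ∀ s t : ℕ, x ^ 2 - x ≤ s → s ≤ t → t ≤ x ^ 2 + x → (x : ℝ) / Real.log x ^ W ≤ (t : ℝ) - s →
    ∀ u v : Fin r → ℝ, (∀ j, u j ≤ v j) → (∀ j, v j ≤ u j + 1) →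
      |(cnt (Bohr α u v) s t : ℝ) - (∏ j, (v j - u j)) * (((t : ℝ) - s) / (2 * Real.log x))| ≤
        ε * (((t : ℝ) - s) / (2 * Real.log x))

theorem sq_sub (x : ℕ) (hx : 1 ≤ x) : (x - 1) ^ 2 ≤ x ^ 2 - x := by
  obtain ⟨m, rfl⟩ : ∃ m, x = m + 1 := ⟨x - 1, by omega⟩
  have h2 : (m + 1) ^ 2 - (m + 1) = m ^ 2 + m := by
    have : (m + 1) ^ 2 = m ^ 2 + m + (m + 1) := by ring
    omega
  rw [h2]
  simp

theorem oppermannAt {r : ℕ} {α : Fin r → ℝ} {ε δ : ℝ} {x : ℕ} (hx : 2 ≤ x) (h : Good α 0 ε x) (hε : ε < δ) :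
    OppermannAt α δ x := by
  intro u v hu hv hvol
  have hsub : x ≤ x ^ 2 := Nat.le_self_pow (by norm_num) x
  constructor
  · obtain ⟨p, h1, h2, h3⟩ := h.exists hx (s := x ^ 2 - x) (t := x ^ 2) (sq_sub x (by omega)) (Nat.sub_le _ _)
      (by nlinarith) (by
        rw [Nat.cast_sub hsub, pow_zero, div_one]
        linarith) hu hv hε hvol
    refine ⟨p, h1, lt_of_le_of_ne h2 ?_, h3⟩
    rintro rfl
    have h5 := h3.1
    rw [sq] at h5
    exact Nat.not_prime_mul (by omega) (by omega) h5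
  · obtain ⟨p, h1, h2, h3⟩ := h.exists hx (s := x ^ 2) (t := x ^ 2 + x)
      ((sq_sub x (by omega)).trans (Nat.sub_le _ _)) (by omega)
      (by nlinarith) (by
        push_cast
        rw [pow_zero, div_one]
        linarith) hu hv hε hvol
    refine ⟨p, h1, lt_of_le_of_ne h2 ?_, h3⟩
    rintro rfl
    have h4 : x ^ 2 + x = x * (x + 1) := by ring
    have h5 := h3.1
    rw [h4] at h5
    exact Nat.not_prime_mul (by omega) (by omega) h5

/-- **Theorem.** -/
theorem result {r : ℕ} (α : Fin r → ℝ) (hα : Independent α) (d V W : ℕ) (hd : 1 ≤ d) (δ ε : ℝ) (hδ : 0 < δ) (hε : 0 < ε) :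
    ∀ᵐ θ : Fin d → ℝ, {z : (Fin d → ℤ) × ℕ | GoodApproximation d V θ z.1 z.2 ∧ ∃ x : ℕ, 3 ≤ x ∧ Near V z.1 z.2 x ∧
      ¬ (OppermannAt α δ x ∧ EquidistributedAt α W ε x)}.Finite := by
  have h1 : Run7.h469.GA.Thin (fun x => 3 ≤ x → OppermannAt α δ x ∧ EquidistributedAt α W ε x) := by
    refine Run7.h946.SQ.thin_mono (fun x hg hx2 => ?_)
      (Run7.h946.SQ.thin_good hα W (ε := min ε (δ / 2)) (lt_min hε (by positivity)))
    have h5 : Good α 0 (δ / 2) x := (hg.mono (min_le_right _ _)).mono_W (Nat.zero_le _) hx2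
    refine ⟨oppermannAt (by omega) h5 (by linarith), ?_⟩
    intro s t a1 a2 a3 a4 u v a5 a6
    exact (hg.mono (min_le_left _ _)) s t ((sq_sub x (by omega)).trans a1) a2 (by nlinarith) a4 u v a5 a6
  filter_upwards [Run7.h469.Tm.approximations _ h1 d V hd] with θ hθ
  refine hθ.subset ?_
  rintro z ⟨h2, x, h3, h4, h5⟩
  exact ⟨h2, x, h4, fun h6 => h5 (h6 h3)⟩

end Pool.Agent.Results.MP_bf4c7f_nt.NearApproximations
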