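import Mathlib
import Pool.Agent.Run7.h880.RP.Wait
import Pool.Agent.Run7.h880.RP.TriSq
import Pool.Agent.Run7.h880.RP.CntUp

/-!
# MP_bf4c7f_nt: the waiting times for a prime on both sides of the squares

We look for a prime of `(n^2 - n, n^2)` by testing the numbers `n^2 - w 0, n^2 - w 1, ...`, and for a prime of `(n^2, n^2 + n)` by
testing `n^2 + v 0, n^2 + v 1, ...`, where the `w j`, `v j` are independent and uniform in `[1, q]`, `N / log^a N ≤ q ≤ N`, the same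
for all the `n` of `(N, 2 N]`. Let `S n`, `T n` be the waiting times on the two sides. In probability, the pairs
`(S n, T n) / log² N` of the regular `n` fill the triangle `s, t ≥ 0`, `s + t ≤ 2`, and the number of the `n` near the point
`(s, t)` is `N ^ (1 - (s + t) / 2 + o(1))`.
-/

set_option autoImplicit false

namespace Pool.Agent.Results.MP_bf4c7f_nt.WaitingTriangle

open Finset Filter

/-- the number of the failures before the first success: the least `k` with `f k`, and `m` if there is none -/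
noncomputable def wait {m : ℕ} (f : Fin m → Prop) : ℕ := sInf {k | ∀ h : k < m, f ⟨k, h⟩}

/-- the waiting time for a prime `n ^ 2 - w j` -/
noncomputable def before {m : ℕ} (w : Fin m → ℕ) (n : ℕ) : ℕ := wait fun j => (n ^ 2 - w j).Prime

/-- the waiting time for a prime `n ^ 2 + v j` -/
noncomputable def after {m : ℕ} (v : Fin m → ℕ) (n : ℕ) : ℕ := wait fun j => (n ^ 2 + v j).Prime

/-- all the `m`-tuples of integers of `[1, q]` -/
def positions (q m : ℕ) : Finset (Fin m → ℕ) := Fintype.piFinset fun _ => Icc 1 q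

/-- the numbers of the primes of `[n ^ 2 - q, n ^ 2)` and of `(n ^ 2, n ^ 2 + q]` are `q / (2 log N)` up to the factor
`1 + O(1 / log N)` -/
def Regular (N q n : ℕ) : Prop :=
  |(((Icc 1 q).filter fun w => (n ^ 2 - w).Prime).card : ℝ) / q - 1 / (2 * Real.log N)| ≤ 3 / Real.log N ^ 2 ∧
  |(((Icc 1 q).filter fun w => (n ^ 2 + w).Prime).card : ℝ) / q - 1 / (2 * Real.log N)| ≤ 3 / Real.log N ^ 2

lemma wait_set {m : ℕ} (f : Fin m → Prop) : ({k | ∀ h : k < m, f ⟨k, h⟩} : Set ℕ).Nonempty :=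
  ⟨m, fun h => absurd h (lt_irrefl m)⟩

lemma le_wait {m i : ℕ} {f : Fin m → Prop} (hi : i ≤ m) (h : ∀ l : Fin m, l.1 < i → ¬ f l) : i ≤ wait f := by
  refine le_csInf (wait_set f) fun k hk => ?_
  by_contra hcon
  have hk' : ∀ h : k < m, f ⟨k, h⟩ := hk
  exact h ⟨k, by omega⟩ (by simp only; omega) (hk' (by omega))

lemma of_lt_wait {m : ℕ} {f : Fin m → Prop} (l : Fin m) (h : l.1 < wait f) : ¬ f l := by
  intro hf
  have h1 : wait f ≤ l.1 := Nat.sInf_le fun _ => hf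
  omega


open Classical in
/-- the regular integers of `(N, 2 N]` whose waiting times are at least `s log² N` and `t log² N` -/
noncomputable def big (N q : ℕ) (s t : ℝ) {m : ℕ} (r : (Fin m → ℕ) × (Fin m → ℕ)) : Finset ℕ :=
  (Ioc N (2 * N)).filter fun n => Regular N q n ∧ s * Real.log N ^ 2 ≤ before r.1 n ∧ t * Real.log N ^ 2 ≤ after r.2 n

open Classical in
/-- the regular integers of `(N, 2 N]` whose waiting times are in `[s log² N, (s + ε) log² N)` and `[t log² N, (t + ε) log² N)` -/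
noncomputable def box (N q : ℕ) (ε s t : ℝ) {m : ℕ} (r : (Fin m → ℕ) × (Fin m → ℕ)) : Finset ℕ :=
  (Ioc N (2 * N)).filter fun n => Regular N q n ∧
    (s * Real.log N ^ 2 ≤ before r.1 n ∧ (before r.1 n : ℝ) < (s + ε) * Real.log N ^ 2) ∧
    (t * Real.log N ^ 2 ≤ after r.2 n ∧ (after r.2 n : ℝ) < (t + ε) * Real.log N ^ 2)

lemma reg_iff (N q n : ℕ) : Pool.Agent.Run7.h880.RP.RegSq N q n ↔ Regular N q n := by
  have e : (12 : ℝ) / (2 * Real.log N) ^ 2 = 3 / Real.log N ^ 2 := by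
    rw [mul_pow, div_mul_eq_div_div]
    norm_num
  unfold Pool.Agent.Run7.h880.RP.RegSq Regular
  rw [e]
  constructor
  · intro h
    exact ⟨h false, h true⟩
  · rintro ⟨h1, h2⟩ b
    cases b
    · exact h1
    · exact h2

lemma mem_good (N q n : ℕ) : n ∈ Pool.Agent.Run7.h880.RP.GoodSq N q ↔ n ∈ Ioc N (2 * N) ∧ Regular N q n := by
  unfold Pool.Agent.Run7.h880.RP.GoodSq
  simp only [mem_filter, reg_iff]

lemma pos_mem {q m : ℕ} {w : Fin m → ℕ} (hw : w ∈ positions q m) (l : Fin m) : w l ∈ Icc 1 q := by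
  unfold positions at hw
  rw [Fintype.mem_piFinset] at hw
  exact hw l

lemma fail_before {q m : ℕ} {w : Fin m → ℕ} {n i : ℕ} (hi : i ≤ before w n) :
    Pool.Agent.Run7.h880.RP.Fail (Pool.Agent.Run7.h880.RP.sqA n q false) i w := by
  intro l hl hmem
  unfold Pool.Agent.Run7.h880.RP.sqA at hmem
  simp only [mem_filter, Bool.false_eq_true, if_false] at hmem
  exact of_lt_wait l (lt_of_lt_of_le hl hi) hmem.2

lemma fail_after {q m : ℕ} {w : Fin m → ℕ} {n i : ℕ} (hi : i ≤ after w n) :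
    Pool.Agent.Run7.h880.RP.Fail (Pool.Agent.Run7.h880.RP.sqA n q true) i w := by
  intro l hl hmem
  unfold Pool.Agent.Run7.h880.RP.sqA at hmem
  simp only [mem_filter, if_true] at hmem
  exact of_lt_wait l (lt_of_lt_of_le hl hi) hmem.2

lemma before_ge {q m : ℕ} {w : Fin m → ℕ} {n i : ℕ} (hw : w ∈ positions q m) (hi : i ≤ m)
    (h : Pool.Agent.Run7.h880.RP.Fail (Pool.Agent.Run7.h880.RP.sqA n q false) i w) : i ≤ before w n := by
  refine le_wait hi fun l hl hp => h l hl ?_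
  unfold Pool.Agent.Run7.h880.RP.sqA
  simp only [mem_filter, Bool.false_eq_true, if_false]
  exact ⟨pos_mem hw l, hp⟩

lemma after_ge {q m : ℕ} {w : Fin m → ℕ} {n i : ℕ} (hw : w ∈ positions q m) (hi : i ≤ m)
    (h : Pool.Agent.Run7.h880.RP.Fail (Pool.Agent.Run7.h880.RP.sqA n q true) i w) : i ≤ after w n := by
  refine le_wait hi fun l hl hp => h l hl ?_
  unfold Pool.Agent.Run7.h880.RP.sqA
  simp only [mem_filter, if_true]
  exact ⟨pos_mem hw l, hp⟩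

lemma good_le (N q : ℕ) : ((Pool.Agent.Run7.h880.RP.GoodSq N q).card : ℝ) ≤ N := by
  have h6 : Pool.Agent.Run7.h880.RP.GoodSq N q ⊆ Ioc N (2 * N) := fun n hn => ((mem_good N q n).1 hn).1
  have := card_le_card h6
  rw [Nat.card_Ioc] at this
  exact_mod_cast (by omega : (Pool.Agent.Run7.h880.RP.GoodSq N q).card ≤ N)

lemma q_ge {a N q : ℕ} (hN1 : 1 ≤ N) (l4 : 1 * Real.log N ^ a ≤ (N : ℝ) ^ (1 / 3 : ℝ)) (hq1 : (N : ℝ) ≤ q * Real.log N ^ a) :
    (N : ℝ) ^ (1 / 2 : ℝ) ≤ q := by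
  have hNr : (1 : ℝ) ≤ N := by exact_mod_cast hN1
  have hN0 : (0 : ℝ) < N := by linarith
  have g1 : (N : ℝ) ^ (1 / 2 : ℝ) * (N : ℝ) ^ (1 / 2 : ℝ) = N := by
    rw [← Real.rpow_add hN0]
    norm_num
  have g2 : (N : ℝ) ^ (1 / 3 : ℝ) ≤ (N : ℝ) ^ (1 / 2 : ℝ) := Real.rpow_le_rpow_of_exponent_le hNr (by norm_num)
  have g3 : Real.log N ^ a ≤ (N : ℝ) ^ (1 / 2 : ℝ) := by linarith
  have g4 : (N : ℝ) ^ (1 / 2 : ℝ) * (N : ℝ) ^ (1 / 2 : ℝ) ≤ q * (N : ℝ) ^ (1 / 2 : ℝ) := by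
    rw [g1]
    exact hq1.trans (mul_le_mul_of_nonneg_left g3 (Nat.cast_nonneg q))
  exact le_of_mul_le_mul_right g4 (by positivity)

lemma good_ge (a : ℕ) : ∃ N₀ : ℕ, ∀ N : ℕ, N₀ ≤ N → ∀ q : ℕ, (N : ℝ) ≤ q * Real.log N ^ a → q ≤ N →
    (N : ℝ) / 2 ≤ (Pool.Agent.Run7.h880.RP.GoodSq N q).card := by
  obtain ⟨N₁, h1⟩ := Pool.Agent.Run7.h880.RP.goodsq_card a 1
  obtain ⟨N₃, h3⟩ := eventually_atTop.1 (Pool.Agent.N384.MQ.ev_log_ge 2)
  refine ⟨max N₁ N₃, fun N hN q hq1 hq2 => ?_⟩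
  have l3 := h3 N (le_trans (le_max_right _ _) hN)
  have hJ1 := h1 N (le_trans (le_max_left _ _) hN) q hq1 hq2
  have hsub : Pool.Agent.Run7.h880.RP.GoodSq N q ⊆ Ioc N (2 * N) := fun n hn => ((mem_good N q n).1 hn).1
  have e : ((Ioc N (2 * N) \ Pool.Agent.Run7.h880.RP.GoodSq N q).card : ℝ) =
      N - (Pool.Agent.Run7.h880.RP.GoodSq N q).card := by
    have hc := card_le_card hsub
    rw [card_sdiff_of_subset hsub, Nat.cast_sub hc, Nat.card_Ioc, Nat.cast_sub (by omega)]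
    push_cast
    ring
  rw [e, pow_one] at hJ1
  have : (N : ℝ) / Real.log N ≤ N / 2 := div_le_div_of_nonneg_left (Nat.cast_nonneg _) (by norm_num) l3
  linarith

lemma hlim : Tendsto (fun N : ℕ => 2 * Real.log N) atTop atTop :=
  (Real.tendsto_log_atTop.comp (tendsto_natCast_atTop_atTop (R := ℝ))).const_mul_atTop (by norm_num)

lemma surv_eq {N q m : ℕ} {s t : ℝ} {r : (Fin m → ℕ) × (Fin m → ℕ)} (hr : r ∈ positions q m ×ˢ positions q m)
    (hi : ⌈s * Real.log N ^ 2⌉₊ ≤ m) (hj : ⌈t * Real.log N ^ 2⌉₊ ≤ m) :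
    Pool.Agent.Run7.h880.RP.surv (Pool.Agent.Run7.h880.RP.surv (Pool.Agent.Run7.h880.RP.GoodSq N q)
      (fun n => Pool.Agent.Run7.h880.RP.sqA n q true) ⌈t * Real.log N ^ 2⌉₊ r.2)
      (fun n => Pool.Agent.Run7.h880.RP.sqA n q false) ⌈s * Real.log N ^ 2⌉₊ r.1 = big N q s t r := by
  ext n
  rw [Pool.Agent.Run7.h880.RP.mem_surv, Pool.Agent.Run7.h880.RP.mem_surv, mem_good]
  unfold big
  simp only [mem_filter]
  rw [mem_product] at hr
  constructor
  · rintro ⟨⟨⟨h1, h2⟩, h3⟩, h4⟩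
    exact ⟨h1, h2, Nat.ceil_le.1 (before_ge hr.1 hi h4), Nat.ceil_le.1 (after_ge hr.2 hj h3)⟩
  · rintro ⟨h1, h2, h3, h4⟩
    exact ⟨⟨⟨h1, h2⟩, fail_after (Nat.ceil_le.2 h4)⟩, fail_before (Nat.ceil_le.2 h3)⟩

open Classical in
lemma lo (s t δ : ℝ) (hs : 0 ≤ s) (ht : 0 ≤ t) (hst : s + t < 2) (hδ : 0 < δ) (a : ℕ) : ∃ (N₀ : ℕ) (K : ℝ), 0 ≤ K ∧
    ∀ N : ℕ, N₀ ≤ N → ∀ q : ℕ, (N : ℝ) ≤ q * Real.log N ^ a → q ≤ N → ∀ m : ℕ, 2 * Real.log N ^ 2 ≤ m →
    (((positions q m ×ˢ positions q m).filter fun r =>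
      ¬ (N : ℝ) ^ (1 - (s + t) / 2 - δ) ≤ ((big N q s t r).card : ℝ)).card : ℝ) ≤
      K / Real.sqrt (Real.log N) * ((positions q m ×ˢ positions q m).card : ℝ) := by
  obtain ⟨δ₀, hδ₀⟩ : ∃ δ₀, δ₀ = min (δ / 4) ((2 - (s + t)) / 16) := ⟨_, rfl⟩
  have hd0 : 0 < δ₀ := by rw [hδ₀]; exact lt_min (by positivity) (by linarith)
  have hd1 : δ₀ ≤ δ / 4 := by rw [hδ₀]; exact min_le_left _ _
  have hd2 : δ₀ ≤ (2 - (s + t)) / 16 := by rw [hδ₀]; exact min_le_right _ _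
  obtain ⟨σ, hσ⟩ : ∃ σ, σ = (s + t) / 4 + δ₀ := ⟨_, rfl⟩
  obtain ⟨c, hc, h1⟩ := Pool.Agent.Run7.h880.RP.count_lo (1 / 2) σ δ₀ 12 (by rw [hσ]; linarith) hd0
    (by rw [hσ]; linarith) (by norm_num)
  obtain ⟨K₂, hK2, N₁, h2⟩ := Pool.Agent.Run7.h880.RP.sys_sq c hc
  obtain ⟨C, hC, h1⟩ := h1 K₂ hK2
  obtain ⟨N₅, htri⟩ := Pool.Agent.Run7.h880.RP.tri_sq
  have h4 : ∀ᶠ N : ℕ in atTop, _ := hlim.eventually h1
  obtain ⟨N₂, h4⟩ := eventually_atTop.1 (h4.and ((Pool.Agent.N384.MQ.ev_log_ge 1).and ((Run7.h337.MK.ev_pw a 1).and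
    (Pool.Agent.N384.MQ.ev_log_ge (1 / δ₀)))))
  obtain ⟨N₃, h3⟩ := good_ge a
  refine ⟨max N₁ (max N₂ (max N₃ (max N₅ 1))), C, hC.le, fun N hN q hq1 hq2 m hm => ?_⟩
  have n1 : N₁ ≤ N := le_trans (le_max_left _ _) hN
  have n2 : N₂ ≤ N := le_trans (le_trans (le_max_left _ _) (le_max_right _ _)) hN
  have n3 : N₃ ≤ N := le_trans (le_trans (le_trans (le_max_left _ _) (le_max_right _ _)) (le_max_right _ _)) hN
  have n45 : max N₅ 1 ≤ N := le_trans (le_trans (le_trans (le_max_right _ _) (le_max_right _ _)) (le_max_right _ _)) hN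
  have n5 : N₅ ≤ N := le_trans (le_max_left _ _) n45
  have hN1 : 1 ≤ N := le_trans (le_max_right _ _) n45
  have hNr : (0 : ℝ) < N := by exact_mod_cast hN1
  have hN1r : (1 : ℝ) ≤ N := by exact_mod_cast hN1
  obtain ⟨h5, l1, l4, l5⟩ := h4 N n2
  have hJ := h3 N n3 q hq1 hq2
  have hL0 : 0 < Real.log N := by linarith
  rw [div_le_iff₀ hd0] at l5
  have hle := q_ge hN1 l4 hq1
  have hS := h2 N n1 q hle hq2 _ (Finset.Subset.refl _) hJ
  have hLL : 0 ≤ Real.log N ^ 2 := by positivity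
  have hT := htri N n5 q hle (Pool.Agent.Run7.h880.RP.GoodSq N q) (fun n hn => ((mem_good N q n).1 hn).1)
  have hi2 : (⌈s * Real.log N ^ 2⌉₊ : ℝ) < s * Real.log N ^ 2 + 1 := Nat.ceil_lt_add_one (by positivity)
  have hj2 : (⌈t * Real.log N ^ 2⌉₊ : ℝ) < t * Real.log N ^ 2 + 1 := Nat.ceil_lt_add_one (by positivity)
  have hi3 : ⌈s * Real.log N ^ 2⌉₊ ≤ m :=
    Nat.ceil_le.2 (le_trans (mul_le_mul_of_nonneg_right (by linarith) hLL) hm)
  have hj3 : ⌈t * Real.log N ^ 2⌉₊ ≤ m :=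
    Nat.ceil_le.2 (le_trans (mul_le_mul_of_nonneg_right (by linarith) hLL) hm)
  have h6 := h5 m ⌈s * Real.log N ^ 2⌉₊ ⌈t * Real.log N ^ 2⌉₊ hi3 hj3 (by
      have e : σ * (2 * Real.log N) ^ 2 = (s + t) * Real.log N ^ 2 + 4 * (Real.log N * δ₀ * Real.log N) := by
        rw [hσ]; ring
      rw [e]
      have h7 : 1 ≤ Real.log N * δ₀ * Real.log N := by nlinarith
      linarith) (Icc 1 q)
    (Pool.Agent.Run7.h880.RP.GoodSq N q) (fun n => Pool.Agent.Run7.h880.RP.sqA n q false)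
    (fun n => Pool.Agent.Run7.h880.RP.sqA n q true) (hS false) (hS true) (by
      have e2 : 1 / 2 * (2 * Real.log N) - 1 = Real.log N - 1 := by ring
      rw [e2, Real.exp_sub, Real.exp_log hNr]
      refine le_trans ?_ hJ
      refine div_le_div_of_nonneg_left hNr.le (by norm_num) ?_
      have := Real.exp_one_gt_d9
      linarith) (hT false) (hT true)
    (fun r => r ∈ positions q m ×ˢ positions q m ∧ ¬ (N : ℝ) ^ (1 - (s + t) / 2 - δ) ≤ ((big N q s t r).card : ℝ)) (by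
      rintro r ⟨hr, h7⟩
      rw [surv_eq hr hi3 hj3]
      refine lt_of_lt_of_le (not_le.1 h7) ?_
      rw [Real.rpow_def_of_pos hNr]
      refine Real.exp_le_exp.2 ?_
      rw [hσ]
      nlinarith)
  refine le_trans (Nat.cast_le.2 (card_le_card fun r hr => ?_)) (h6.trans (mul_le_mul_of_nonneg_right ?_ (Nat.cast_nonneg _)))
  · simp only [Finset.mem_filter] at hr ⊢
    exact ⟨hr.1, hr.1, hr.2⟩
  · refine div_le_div_of_nonneg_left hC.le (Real.sqrt_pos.2 hL0) (Real.sqrt_le_sqrt (by linarith))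

open Classical in
lemma up (s t δ : ℝ) (hs : 0 ≤ s) (ht : 0 ≤ t) (hδ : 0 < δ) (a : ℕ) : ∃ N₀ : ℕ,
    ∀ N : ℕ, N₀ ≤ N → ∀ q : ℕ, (N : ℝ) ≤ q * Real.log N ^ a → q ≤ N → ∀ m : ℕ, s * Real.log N ^ 2 ≤ m →
    t * Real.log N ^ 2 ≤ m →
    (((positions q m ×ˢ positions q m).filter fun r =>
      ¬ ((big N q s t r).card : ℝ) ≤ (N : ℝ) ^ (1 - (s + t) / 2 + δ)).card : ℝ) ≤
      1 / Real.log N * ((positions q m ×ˢ positions q m).card : ℝ) := by
  have h1 := Pool.Agent.Run7.h880.RP.count_up (1 / 2) ((s + t) / 4) (δ / 2) ((s + t + 1) / 4) 12 (by positivity)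
    (by positivity) (by norm_num)
  obtain ⟨K₂, hK2, N₁, h2⟩ := Pool.Agent.Run7.h880.RP.sys_sq (4 * ((s + t + 1) / 4 * (12 + 5))) (by positivity)
  have h4 : ∀ᶠ N : ℕ in atTop, _ := hlim.eventually h1
  obtain ⟨N₂, h4⟩ := eventually_atTop.1 (h4.and ((Pool.Agent.N384.MQ.ev_log_ge 1).and (Run7.h337.MK.ev_pw a 1)))
  obtain ⟨N₃, h3⟩ := good_ge a
  refine ⟨max N₁ (max N₂ (max N₃ 1)), fun N hN q hq1 hq2 m hms hmt => ?_⟩
  have n1 : N₁ ≤ N := le_trans (le_max_left _ _) hN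
  have n2 : N₂ ≤ N := le_trans (le_trans (le_max_left _ _) (le_max_right _ _)) hN
  have n3 : N₃ ≤ N := le_trans (le_trans (le_trans (le_max_left _ _) (le_max_right _ _)) (le_max_right _ _)) hN
  have hN1 : 1 ≤ N := le_trans (le_trans (le_trans (le_max_right _ _) (le_max_right _ _)) (le_max_right _ _)) hN
  have hNr : (0 : ℝ) < N := by exact_mod_cast hN1
  obtain ⟨h5, l1, l4⟩ := h4 N n2
  have hJ := h3 N n3 q hq1 hq2
  have hL0 : 0 < Real.log N := by linarith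
  have hle := q_ge hN1 l4 hq1
  have hS := h2 N n1 q hle hq2 _ (Finset.Subset.refl _) hJ
  have hLL : 1 ≤ Real.log N ^ 2 := one_le_pow₀ l1
  have hi1 : s * Real.log N ^ 2 ≤ ⌈s * Real.log N ^ 2⌉₊ := Nat.le_ceil _
  have hj1 : t * Real.log N ^ 2 ≤ ⌈t * Real.log N ^ 2⌉₊ := Nat.le_ceil _
  have hi2 : (⌈s * Real.log N ^ 2⌉₊ : ℝ) < s * Real.log N ^ 2 + 1 := Nat.ceil_lt_add_one (by positivity)
  have hj2 : (⌈t * Real.log N ^ 2⌉₊ : ℝ) < t * Real.log N ^ 2 + 1 := Nat.ceil_lt_add_one (by positivity)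
  have hi3 : ⌈s * Real.log N ^ 2⌉₊ ≤ m := Nat.ceil_le.2 hms
  have hj3 : ⌈t * Real.log N ^ 2⌉₊ ≤ m := Nat.ceil_le.2 hmt
  have hsL : 0 ≤ s * Real.log N ^ 2 := by positivity
  have htL : 0 ≤ t * Real.log N ^ 2 := by positivity
  have h6 := h5 m ⌈s * Real.log N ^ 2⌉₊ ⌈t * Real.log N ^ 2⌉₊ hi3 hj3 (by
      have e : (s + t + 1) / 4 * (2 * Real.log N) ^ 2 = s * Real.log N ^ 2 + t * Real.log N ^ 2 + Real.log N ^ 2 := by ring
      rw [e]
      linarith) (by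
      have e : (s + t + 1) / 4 * (2 * Real.log N) ^ 2 = s * Real.log N ^ 2 + t * Real.log N ^ 2 + Real.log N ^ 2 := by ring
      rw [e]
      linarith) (by
      have e : (s + t) / 4 * (2 * Real.log N) ^ 2 = s * Real.log N ^ 2 + t * Real.log N ^ 2 := by ring
      rw [e]
      linarith) (Icc 1 q)
    (Pool.Agent.Run7.h880.RP.GoodSq N q) (fun n => Pool.Agent.Run7.h880.RP.sqA n q false)
    (fun n => Pool.Agent.Run7.h880.RP.sqA n q true) K₂ (hS false) (hS true) (by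
      have e2 : 1 / 2 * (2 * Real.log N) + 1 = Real.log N + 1 := by ring
      rw [e2, Real.exp_add, Real.exp_log hNr]
      have := good_le N q
      have h8 := Real.exp_one_gt_d9
      nlinarith)
    (fun r => r ∈ positions q m ×ˢ positions q m ∧ ¬ ((big N q s t r).card : ℝ) ≤ (N : ℝ) ^ (1 - (s + t) / 2 + δ)) (by
      rintro r ⟨hr, h7⟩
      rw [surv_eq hr hi3 hj3]
      refine le_trans (le_of_eq ?_) (not_le.1 h7).le
      rw [Real.rpow_def_of_pos hNr]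
      congr 1
      ring)
  refine le_trans (Nat.cast_le.2 (card_le_card fun r hr => ?_)) (h6.trans (mul_le_mul_of_nonneg_right ?_ (Nat.cast_nonneg _)))
  · simp only [Finset.mem_filter] at hr ⊢
    exact ⟨hr.1, hr.1, hr.2⟩
  · exact div_le_div_of_nonneg_left zero_le_one hL0 (by linarith)

lemma box_card (N q : ℕ) (ε s t : ℝ) {m : ℕ} (r : (Fin m → ℕ) × (Fin m → ℕ)) :
    ((big N q s t r).card : ℝ) ≤ (box N q ε s t r).card + (big N q (s + ε) t r).card + (big N q s (t + ε) r).card := by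
  classical
  have hsub : big N q s t r ⊆ (box N q ε s t r ∪ big N q (s + ε) t r) ∪ big N q s (t + ε) r := by
    intro n hn
    rw [mem_union, mem_union]
    unfold big at hn
    simp only [mem_filter] at hn
    obtain ⟨h1, h2, h3, h4⟩ := hn
    by_cases h5 : (before r.1 n : ℝ) < (s + ε) * Real.log N ^ 2
    · by_cases h6 : (after r.2 n : ℝ) < (t + ε) * Real.log N ^ 2
      · left; left
        unfold box
        simp only [mem_filter]
        exact ⟨h1, h2, ⟨h3, h5⟩, ⟨h4, h6⟩⟩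
      · right
        unfold big
        simp only [mem_filter]
        exact ⟨h1, h2, h3, not_lt.1 h6⟩
    · left; right
      unfold big
      simp only [mem_filter]
      exact ⟨h1, h2, not_lt.1 h5, h4⟩
  have h1 := (card_le_card hsub).trans ((card_union_le _ _).trans (Nat.add_le_add_right (card_union_le _ _) _))
  exact_mod_cast h1

lemma box_le (N q : ℕ) (ε s t : ℝ) {m : ℕ} (r : (Fin m → ℕ) × (Fin m → ℕ)) :
    ((box N q ε s t r).card : ℝ) ≤ (big N q s t r).card := by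
  classical
  refine Nat.cast_le.2 (card_le_card fun n hn => ?_)
  unfold box at hn
  unfold big
  simp only [mem_filter] at hn ⊢
  exact ⟨hn.1, hn.2.1, hn.2.2.1.1, hn.2.2.2.1⟩

open Classical in
lemma box_all (s t ε : ℝ) (hs : 0 ≤ s) (ht : 0 ≤ t) (hst : s + t < 2) (hε : 0 < ε) (a : ℕ) : ∃ (N₀ : ℕ) (K : ℝ), 0 ≤ K ∧
    ∀ N : ℕ, N₀ ≤ N → ∀ q : ℕ, (N : ℝ) ≤ q * Real.log N ^ a → q ≤ N → ∀ m : ℕ, (2 + ε) * Real.log N ^ 2 ≤ m →
    (((positions q m ×ˢ positions q m).filter fun r =>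
      ¬ ((N : ℝ) ^ (1 - (s + t) / 2 - ε) ≤ ((box N q ε s t r).card : ℝ) ∧
        ((box N q ε s t r).card : ℝ) ≤ (N : ℝ) ^ (1 - (s + t) / 2 + ε))).card : ℝ) ≤
      K / Real.sqrt (Real.log N) * ((positions q m ×ˢ positions q m).card : ℝ) := by
  obtain ⟨N₁, K, hK, h1⟩ := lo s t (ε / 8) hs ht hst (by positivity) a
  obtain ⟨N₂, h2⟩ := up s t (ε / 8) hs ht (by positivity) a
  obtain ⟨N₃, h3⟩ := up (s + ε) t (ε / 8) (by linarith) ht (by positivity) a
  obtain ⟨N₄, h4⟩ := up s (t + ε) (ε / 8) hs (by linarith) (by positivity) a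
  obtain ⟨N₅, h5⟩ := eventually_atTop.1 ((Pool.Agent.N384.MQ.ev_log_ge 1).and (Pool.Agent.N384.MQ.ev_log_ge (8 / ε)))
  refine ⟨max (max N₁ N₂) (max (max N₃ N₄) (max N₅ 1)), K + 3, by linarith, fun N hN q hq1 hq2 m hm => ?_⟩
  have n12 : max N₁ N₂ ≤ N := le_trans (le_max_left _ _) hN
  have n36 := le_trans (le_max_right _ _) hN
  have n34 : max N₃ N₄ ≤ N := le_trans (le_max_left _ _) n36
  have n56 : max N₅ 1 ≤ N := le_trans (le_max_right _ _) n36
  obtain ⟨l1, l2⟩ := h5 N (le_trans (le_max_left _ _) n56)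
  have hN1 : 1 ≤ N := le_trans (le_max_right _ _) n56
  have hN1r : (1 : ℝ) ≤ N := by exact_mod_cast hN1
  have hNr : (0 : ℝ) < N := by linarith
  have hL0 : 0 < Real.log N := by linarith
  have hLL : 0 ≤ Real.log N ^ 2 := by positivity
  rw [div_le_iff₀ hε] at l2
  have m1 : ∀ u : ℝ, u ≤ 2 + ε → u * Real.log N ^ 2 ≤ m := fun u hu =>
    (mul_le_mul_of_nonneg_right hu hLL).trans hm
  have b1 := h1 N (le_trans (le_max_left _ _) n12) q hq1 hq2 m (m1 2 (by linarith))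
  have b2 := h2 N (le_trans (le_max_right _ _) n12) q hq1 hq2 m (m1 s (by linarith)) (m1 t (by linarith))
  have b3 := h3 N (le_trans (le_max_left _ _) n34) q hq1 hq2 m (m1 (s + ε) (by linarith)) (m1 t (by linarith))
  have b4 := h4 N (le_trans (le_max_right _ _) n34) q hq1 hq2 m (m1 s (by linarith)) (m1 (t + ε) (by linarith))
  have hsub : ((positions q m ×ˢ positions q m).filter fun r =>
      ¬ ((N : ℝ) ^ (1 - (s + t) / 2 - ε) ≤ ((box N q ε s t r).card : ℝ) ∧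
        ((box N q ε s t r).card : ℝ) ≤ (N : ℝ) ^ (1 - (s + t) / 2 + ε))) ⊆
      (((positions q m ×ˢ positions q m).filter fun r =>
        ¬ (N : ℝ) ^ (1 - (s + t) / 2 - ε / 8) ≤ ((big N q s t r).card : ℝ)) ∪
      ((positions q m ×ˢ positions q m).filter fun r =>
        ¬ ((big N q s t r).card : ℝ) ≤ (N : ℝ) ^ (1 - (s + t) / 2 + ε / 8))) ∪
      (((positions q m ×ˢ positions q m).filter fun r =>
        ¬ ((big N q (s + ε) t r).card : ℝ) ≤ (N : ℝ) ^ (1 - (s + ε + t) / 2 + ε / 8)) ∪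
      ((positions q m ×ˢ positions q m).filter fun r =>
        ¬ ((big N q s (t + ε) r).card : ℝ) ≤ (N : ℝ) ^ (1 - (s + (t + ε)) / 2 + ε / 8))) := by
    intro r hr
    by_contra hcon
    simp only [mem_union, mem_filter, not_or, not_and, not_not] at hcon hr
    obtain ⟨⟨c1, c2⟩, c3, c4⟩ := hcon
    have c1 := c1 hr.1
    have c2 := c2 hr.1
    have c3 := c3 hr.1
    have c4 := c4 hr.1
    have hb := box_card N q ε s t r
    have hb2 := box_le N q ε s t r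
    have e3 : (1 : ℝ) - (s + ε + t) / 2 + ε / 8 = (1 - (s + t) / 2 - 3 * ε / 8) := by ring
    have e4 : (1 : ℝ) - (s + (t + ε)) / 2 + ε / 8 = (1 - (s + t) / 2 - 3 * ε / 8) := by ring
    have e5 : (1 : ℝ) - (s + t) / 2 - ε / 8 = (1 - (s + t) / 2 - 3 * ε / 8) + ε / 4 := by ring
    rw [e3] at c3
    rw [e4] at c4
    rw [e5, Real.rpow_add hNr] at c1
    obtain ⟨X, hX⟩ : ∃ X, X = (N : ℝ) ^ (1 - (s + t) / 2 - 3 * ε / 8) := ⟨_, rfl⟩
    have hX0 : 0 < X := by rw [hX]; exact Real.rpow_pos_of_pos hNr _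
    rw [← hX] at c1 c3 c4
    have h6 : (3 : ℝ) ≤ (N : ℝ) ^ (ε / 4) := by
      rw [Real.rpow_def_of_pos hNr]
      have h7 := Real.add_one_le_exp (Real.log N * (ε / 4))
      linarith
    have h8 : X ≤ ((box N q ε s t r).card : ℝ) := by nlinarith
    refine (hr.2 (le_trans ?_ h8)) ?_
    · rw [hX]
      exact Real.rpow_le_rpow_of_exponent_le hN1r (by linarith)
    · refine hb2.trans (c2.trans ?_)
      exact Real.rpow_le_rpow_of_exponent_le hN1r (by linarith)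
  have h6 := (card_le_card hsub).trans ((card_union_le _ _).trans (Nat.add_le_add (card_union_le _ _) (card_union_le _ _)))
  refine (Nat.cast_le.2 h6).trans ?_
  rw [Nat.cast_add, Nat.cast_add, Nat.cast_add]
  have h7 : 1 / Real.log N ≤ 1 / Real.sqrt (Real.log N) := by
    refine one_div_le_one_div_of_le (Real.sqrt_pos.2 hL0) ?_
    rw [Real.sqrt_le_left (by linarith)]
    nlinarith
  obtain ⟨P, hP⟩ : ∃ P : ℝ, P = ((positions q m ×ˢ positions q m).card : ℝ) := ⟨_, rfl⟩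
  have hP0 : 0 ≤ P := by rw [hP]; exact Nat.cast_nonneg _
  rw [← hP] at b1 b2 b3 b4 ⊢
  have h8 := mul_le_mul_of_nonneg_right h7 hP0
  have e : (K + 3) / Real.sqrt (Real.log N) * P = K / Real.sqrt (Real.log N) * P +
      3 * (1 / Real.sqrt (Real.log N) * P) := by ring
  rw [e]
  linarith

open Classical in
lemma triangle (ε : ℝ) (hε : 0 < ε) (a : ℕ) : ∃ (N₀ : ℕ) (K : ℝ), ∀ N : ℕ, N₀ ≤ N → ∀ q : ℕ,
    (N : ℝ) ≤ q * Real.log N ^ a → q ≤ N → ∀ m : ℕ, (2 + ε) * Real.log N ^ 2 ≤ m →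
    (((positions q m ×ˢ positions q m).filter fun r => ¬ ∀ s t : ℝ, 0 ≤ s → 0 ≤ t → s + t ≤ 2 →
      ∃ n ∈ Ioc N (2 * N), Regular N q n ∧
        |(before r.1 n : ℝ) - s * Real.log N ^ 2| ≤ ε * Real.log N ^ 2 ∧
        |(after r.2 n : ℝ) - t * Real.log N ^ 2| ≤ ε * Real.log N ^ 2).card : ℝ) ≤
      K / Real.sqrt (Real.log N) * ((positions q m ×ˢ positions q m).card : ℝ) := by
  obtain ⟨k, hk⟩ : ∃ k : ℕ, 4 / ε ≤ k := exists_nat_ge _
  have hk0 : (0 : ℝ) < k := lt_of_lt_of_le (by positivity) hk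
  have hk1 : 1 ≤ k := by
    rcases Nat.eq_zero_or_pos k with h | h
    · rw [h, Nat.cast_zero] at hk0
      exact absurd hk0 (lt_irrefl _)
    · exact h
  rw [div_le_iff₀ hε] at hk
  have hkε : 1 / (k : ℝ) ≤ ε / 4 := by
    rw [div_le_div_iff₀ hk0 (by norm_num)]
    linarith
  obtain ⟨G, hG⟩ : ∃ G : Finset (ℕ × ℕ), G = (range (2 * k) ×ˢ range (2 * k)).filter fun g => g.1 + g.2 < 2 * k :=
    ⟨_, rfl⟩
  have hGm : ∀ g : ℕ × ℕ, g ∈ G ↔ g.1 + g.2 < 2 * k := by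
    intro g
    rw [hG, mem_filter, mem_product, mem_range, mem_range]
    constructor
    · exact fun h => h.2
    · intro h
      exact ⟨⟨by omega, by omega⟩, h⟩
  have h1 : ∀ g : ℕ × ℕ, ∃ (N₀ : ℕ) (K : ℝ), 0 ≤ K ∧ (g ∈ G →
      ∀ N : ℕ, N₀ ≤ N → ∀ q : ℕ, (N : ℝ) ≤ q * Real.log N ^ a → q ≤ N → ∀ m : ℕ, (2 + ε / 4) * Real.log N ^ 2 ≤ m →
      (((positions q m ×ˢ positions q m).filter fun r =>
        ¬ ((N : ℝ) ^ (1 - ((g.1 : ℝ) / k + (g.2 : ℝ) / k) / 2 - ε / 4) ≤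
            ((box N q (ε / 4) ((g.1 : ℝ) / k) ((g.2 : ℝ) / k) r).card : ℝ) ∧
          ((box N q (ε / 4) ((g.1 : ℝ) / k) ((g.2 : ℝ) / k) r).card : ℝ) ≤
            (N : ℝ) ^ (1 - ((g.1 : ℝ) / k + (g.2 : ℝ) / k) / 2 + ε / 4))).card : ℝ) ≤
        K / Real.sqrt (Real.log N) * ((positions q m ×ˢ positions q m).card : ℝ)) := by
    intro g
    by_cases hg : g ∈ G
    · obtain ⟨N₀, K, hK, h⟩ := box_all ((g.1 : ℝ) / k) ((g.2 : ℝ) / k) (ε / 4) (by positivity) (by positivity) (by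
        rw [← add_div, div_lt_iff₀ hk0]
        exact_mod_cast (hGm g).1 hg) (by positivity) a
      exact ⟨N₀, K, hK, fun _ => h⟩
    · exact ⟨0, 0, le_rfl, fun h => absurd h hg⟩
  choose N₀ K hK h1 using h1
  refine ⟨(∑ g ∈ G, N₀ g) + 2, ∑ g ∈ G, K g, fun N hN q hq1 hq2 m hm => ?_⟩
  have hN2 : 2 ≤ N := by omega
  have hNr : (0 : ℝ) < N := by exact_mod_cast (by omega : 0 < N)
  have hLL : 0 ≤ Real.log N ^ 2 := by positivity
  have hsub : ((positions q m ×ˢ positions q m).filter fun r => ¬ ∀ s t : ℝ, 0 ≤ s → 0 ≤ t → s + t ≤ 2 →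
      ∃ n ∈ Ioc N (2 * N), Regular N q n ∧
        |(before r.1 n : ℝ) - s * Real.log N ^ 2| ≤ ε * Real.log N ^ 2 ∧
        |(after r.2 n : ℝ) - t * Real.log N ^ 2| ≤ ε * Real.log N ^ 2) ⊆
      G.biUnion fun g => (positions q m ×ˢ positions q m).filter fun r =>
        ¬ ((N : ℝ) ^ (1 - ((g.1 : ℝ) / k + (g.2 : ℝ) / k) / 2 - ε / 4) ≤
            ((box N q (ε / 4) ((g.1 : ℝ) / k) ((g.2 : ℝ) / k) r).card : ℝ) ∧
          ((box N q (ε / 4) ((g.1 : ℝ) / k) ((g.2 : ℝ) / k) r).card : ℝ) ≤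
            (N : ℝ) ^ (1 - ((g.1 : ℝ) / k + (g.2 : ℝ) / k) / 2 + ε / 4)) := by
    intro r hr
    rw [mem_filter] at hr
    by_contra hcon
    refine hr.2 fun s t hs ht hst => ?_
    obtain ⟨x, hx⟩ : ∃ x, x = ⌊(k : ℝ) * s⌋₊ := ⟨_, rfl⟩
    obtain ⟨y, hy⟩ : ∃ y, y = ⌊(k : ℝ) * t⌋₊ := ⟨_, rfl⟩
    have x1 : (x : ℝ) ≤ k * s := by rw [hx]; exact Nat.floor_le (by positivity)
    have x2 : (k : ℝ) * s < x + 1 := by rw [hx]; exact Nat.lt_floor_add_one _
    have y1 : (y : ℝ) ≤ k * t := by rw [hy]; exact Nat.floor_le (by positivity)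
    have y2 : (k : ℝ) * t < y + 1 := by rw [hy]; exact Nat.lt_floor_add_one _
    have hxy : x + y ≤ 2 * k := by
      have : (x : ℝ) + y ≤ 2 * k := by nlinarith
      exact_mod_cast this
    have hg : ((x - 1, y - 1) : ℕ × ℕ) ∈ G := by
      rw [hGm]
      show (x - 1) + (y - 1) < 2 * k
      omega
    have h2 : (N : ℝ) ^ (1 - (((x - 1 : ℕ) : ℝ) / k + ((y - 1 : ℕ) : ℝ) / k) / 2 - ε / 4) ≤
            ((box N q (ε / 4) (((x - 1 : ℕ) : ℝ) / k) (((y - 1 : ℕ) : ℝ) / k) r).card : ℝ) := by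
      by_contra h3
      refine hcon (mem_biUnion.2 ⟨(x - 1, y - 1), hg, mem_filter.2 ⟨hr.1, fun h4 => h3 h4.1⟩⟩)
    have h3 : 0 < (box N q (ε / 4) (((x - 1 : ℕ) : ℝ) / k) (((y - 1 : ℕ) : ℝ) / k) r).card := by
      have := lt_of_lt_of_le (Real.rpow_pos_of_pos hNr _) h2
      exact_mod_cast this
    obtain ⟨n, hn⟩ := card_pos.1 h3
    unfold box at hn
    simp only [mem_filter] at hn
    obtain ⟨g1, g2, ⟨g3, g4⟩, g5, g6⟩ := hn
    have hx3 : (x : ℝ) ≤ ((x - 1 : ℕ) : ℝ) + 1 := by exact_mod_cast (by omega : x ≤ (x - 1) + 1)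
    have hx4 : ((x - 1 : ℕ) : ℝ) ≤ x := by exact_mod_cast Nat.sub_le x 1
    have hy3 : (y : ℝ) ≤ ((y - 1 : ℕ) : ℝ) + 1 := by exact_mod_cast (by omega : y ≤ (y - 1) + 1)
    have hy4 : ((y - 1 : ℕ) : ℝ) ≤ y := by exact_mod_cast Nat.sub_le y 1
    obtain ⟨u, hu⟩ : ∃ u : ℝ, u = ((x - 1 : ℕ) : ℝ) / k := ⟨_, rfl⟩
    obtain ⟨v, hv⟩ : ∃ v : ℝ, v = ((y - 1 : ℕ) : ℝ) / k := ⟨_, rfl⟩
    rw [← hu] at g3 g4
    rw [← hv] at g5 g6
    have u1 : u ≤ s := by rw [hu, div_le_iff₀ hk0]; linarith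
    have u2 : s ≤ u + 2 * (1 / k) := by
      have : s ≤ (((x - 1 : ℕ) : ℝ) + 2) / k := by rw [le_div_iff₀ hk0]; linarith
      refine this.trans (le_of_eq ?_)
      rw [hu]
      ring
    have v1 : v ≤ t := by rw [hv, div_le_iff₀ hk0]; linarith
    have v2 : t ≤ v + 2 * (1 / k) := by
      have : t ≤ (((y - 1 : ℕ) : ℝ) + 2) / k := by rw [le_div_iff₀ hk0]; linarith
      refine this.trans (le_of_eq ?_)
      rw [hv]
      ring
    refine ⟨n, g1, g2, abs_le.2 ⟨?_, ?_⟩, abs_le.2 ⟨?_, ?_⟩⟩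
    · have := mul_le_mul_of_nonneg_right (show s - ε ≤ u by linarith) hLL
      linarith
    · have := mul_le_mul_of_nonneg_right (show u + ε / 4 ≤ s + ε by linarith) hLL
      linarith
    · have := mul_le_mul_of_nonneg_right (show t - ε ≤ v by linarith) hLL
      linarith
    · have := mul_le_mul_of_nonneg_right (show v + ε / 4 ≤ t + ε by linarith) hLL
      linarith
  refine (Nat.cast_le.2 ((card_le_card hsub).trans card_biUnion_le)).trans ?_
  rw [Nat.cast_sum, sum_div, sum_mul]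
  refine sum_le_sum fun g hg => h1 g hg N ?_ q hq1 hq2 m ?_
  · have := single_le_sum (f := fun g => N₀ g) (fun _ _ => Nat.zero_le _) hg
    omega
  · exact (mul_le_mul_of_nonneg_right (by linarith) hLL).trans hm

open Classical in
theorem result :
    -- almost all integers are regular
    (∀ a U : ℕ, ∃ N₀ : ℕ, ∀ N : ℕ, N₀ ≤ N → ∀ q : ℕ, (N : ℝ) ≤ q * Real.log N ^ a → q ≤ N →
      (((Ioc N (2 * N)).filter fun n => ¬ Regular N q n).card : ℝ) ≤ N / Real.log N ^ U) ∧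
    -- the sum of the two waiting times
    (∀ ε : ℝ, 0 < ε → ∀ a : ℕ, ∃ (N₀ : ℕ) (K : ℝ), ∀ N : ℕ, N₀ ≤ N → ∀ q : ℕ,
      (N : ℝ) ≤ q * Real.log N ^ a → q ≤ N → ∀ m : ℕ, (2 + ε) * Real.log N ^ 2 ≤ m →
      (((positions q m ×ˢ positions q m).filter fun r => ¬ ∀ n ∈ Ioc N (2 * N), Regular N q n →
        (before r.1 n : ℝ) + after r.2 n < (2 + ε) * Real.log N ^ 2).card : ℝ) ≤
        K / Real.log N * ((positions q m ×ˢ positions q m).card : ℝ)) ∧
    -- the pairs of the waiting times fill the triangle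
    (∀ ε : ℝ, 0 < ε → ∀ a : ℕ, ∃ (N₀ : ℕ) (K : ℝ), ∀ N : ℕ, N₀ ≤ N → ∀ q : ℕ,
      (N : ℝ) ≤ q * Real.log N ^ a → q ≤ N → ∀ m : ℕ, (2 + ε) * Real.log N ^ 2 ≤ m →
      (((positions q m ×ˢ positions q m).filter fun r => ¬ ∀ s t : ℝ, 0 ≤ s → 0 ≤ t → s + t ≤ 2 →
        ∃ n ∈ Ioc N (2 * N), Regular N q n ∧
          |(before r.1 n : ℝ) - s * Real.log N ^ 2| ≤ ε * Real.log N ^ 2 ∧
          |(after r.2 n : ℝ) - t * Real.log N ^ 2| ≤ ε * Real.log N ^ 2).card : ℝ) ≤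
        K / Real.sqrt (Real.log N) * ((positions q m ×ˢ positions q m).card : ℝ)) ∧
    -- the numbers of the integers near the points of the triangle
    (∀ s t : ℝ, 0 ≤ s → 0 ≤ t → s + t < 2 → ∀ ε : ℝ, 0 < ε → ∀ a : ℕ, ∃ (N₀ : ℕ) (K : ℝ), ∀ N : ℕ, N₀ ≤ N → ∀ q : ℕ,
      (N : ℝ) ≤ q * Real.log N ^ a → q ≤ N → ∀ m : ℕ, (2 + ε) * Real.log N ^ 2 ≤ m →
      (((positions q m ×ˢ positions q m).filter fun r =>
        ¬ ((N : ℝ) ^ (1 - (s + t) / 2 - ε) ≤ ((box N q ε s t r).card : ℝ) ∧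
          ((box N q ε s t r).card : ℝ) ≤ (N : ℝ) ^ (1 - (s + t) / 2 + ε))).card : ℝ) ≤
        K / Real.sqrt (Real.log N) * ((positions q m ×ˢ positions q m).card : ℝ)) := by
  have hbad : ∀ N q : ℕ, (Ioc N (2 * N)).filter (fun n => ¬ Regular N q n) =
      Ioc N (2 * N) \ Pool.Agent.Run7.h880.RP.GoodSq N q := by
    intro N q
    ext n
    unfold Pool.Agent.Run7.h880.RP.GoodSq
    simp only [Finset.mem_sdiff, mem_filter, reg_iff]
    tauto
  refine ⟨?_, ?_, triangle, ?_⟩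
  · intro a U
    obtain ⟨N₀, h⟩ := Pool.Agent.Run7.h880.RP.goodsq_card a U
    refine ⟨N₀, fun N hN q h1 h2 => ?_⟩
    rw [hbad]
    exact h N hN q h1 h2
  · intro ε hε a
    have h1 := Pool.Agent.Run7.h880.RP.wait_up (1 / 2) (ε / 4) 12 (by norm_num) (by positivity) (by norm_num)
    obtain ⟨K₂, hK2, N₁, h2⟩ := Pool.Agent.Run7.h880.RP.sys_sq 0 le_rfl
    have h4 : ∀ᶠ N : ℕ in atTop, _ := hlim.eventually h1
    obtain ⟨N₂, h4⟩ := eventually_atTop.1 (h4.and ((Pool.Agent.N384.MQ.ev_log_ge 1).and (Run7.h337.MK.ev_pw a 1)))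
    obtain ⟨N₃, h3⟩ := good_ge a
    refine ⟨max N₁ (max N₂ (max N₃ 1)), 1, fun N hN q hq1 hq2 m hm => ?_⟩
    have hN1 : 1 ≤ N := le_trans (le_trans (le_trans (le_max_right _ _) (le_max_right _ _)) (le_max_right _ _)) hN
    have hNr : (0 : ℝ) < N := by exact_mod_cast hN1
    obtain ⟨h5, l1, l4⟩ := h4 N (le_trans (le_trans (le_max_left _ _) (le_max_right _ _)) hN)
    have hJ := h3 N (le_trans (le_trans (le_trans (le_max_left _ _) (le_max_right _ _)) (le_max_right _ _)) hN) q hq1 hq2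
    have hL0 : 0 < Real.log N := by linarith
    have hle := q_ge hN1 l4 hq1
    have hS := h2 N (le_trans (le_max_left _ _) hN) q hle hq2 _ (Finset.Subset.refl _) hJ
    obtain ⟨S, hSe⟩ : ∃ S : ℕ, S = ⌊(2 + ε) * Real.log N ^ 2⌋₊ := ⟨_, rfl⟩
    have hS1 : (S : ℝ) ≤ (2 + ε) * Real.log N ^ 2 := by rw [hSe]; exact Nat.floor_le (by positivity)
    have hS2 : (2 + ε) * Real.log N ^ 2 ≤ S + 1 := by rw [hSe]; exact (Nat.lt_floor_add_one _).le
    have e : (1 / 2 + ε / 4) * (2 * Real.log N) ^ 2 = (2 + ε) * Real.log N ^ 2 := by ring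
    have h6 := h5 m S (by exact_mod_cast hS1.trans hm) (by rw [e]; exact hS2) (by rw [e]; exact hS1) (Icc 1 q)
      (Pool.Agent.Run7.h880.RP.GoodSq N q) (fun n => Pool.Agent.Run7.h880.RP.sqA n q false)
      (fun n => Pool.Agent.Run7.h880.RP.sqA n q true) 0 0 K₂ K₂ (hS false) (hS true) (by
        have e2 : 1 / 2 * (2 * Real.log N) + 1 = Real.log N + 1 := by ring
        rw [e2, Real.exp_add, Real.exp_log hNr]
        have := good_le N q
        have h8 := Real.exp_one_gt_d9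
        nlinarith)
      (fun r => ¬ ∀ n ∈ Ioc N (2 * N), Regular N q n →
        (before r.1 n : ℝ) + after r.2 n < (2 + ε) * Real.log N ^ 2) (by
        intro r hr
        have hr' : ∃ n ∈ Ioc N (2 * N), Regular N q n ∧
            (2 + ε) * Real.log N ^ 2 ≤ (before r.1 n : ℝ) + after r.2 n := by
          by_contra hcon
          refine hr fun n hn hreg => ?_
          by_contra hlt
          exact hcon ⟨n, hn, hreg, not_lt.1 hlt⟩
        obtain ⟨n, hn, hreg, h7⟩ := hr'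
        have h8 : S ≤ before r.1 n + after r.2 n := by exact_mod_cast hS1.trans h7
        refine ⟨n, (mem_good N q n).2 ⟨hn, hreg⟩, min (before r.1 n) S, min_le_right _ _, fail_before (min_le_left _ _),
          fail_after ?_⟩
        rcases le_total (before r.1 n) S with h9 | h9
        · rw [min_eq_left h9]
          omega
        · rw [min_eq_right h9]
          omega)
    refine h6.trans (mul_le_mul_of_nonneg_right ?_ (Nat.cast_nonneg _))
    exact div_le_div_of_nonneg_left zero_le_one hL0 (by linarith)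
  · intro s t hs ht hst ε hε a
    obtain ⟨N₀, K, -, h⟩ := box_all s t ε hs ht hst hε a
    exact ⟨N₀, K, h⟩

end Pool.Agent.Results.MP_bf4c7f_nt.WaitingTriangle
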